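import Pool.Agent.Helper89.TQ.Spec

/-!
# MP_5465ec_co, Q2, part TRADE: from trades of coalitions to trades of vectors
-/

set_option autoImplicit false

namespace Pool.Agent.Helper74.TQ.TRADE

open Finset Pool.Agent.R6.Trade Pool.Agent.Helper89.TQ

theorem main : Pool.Agent.Helper89.TQ.S_TRADE := by
  classical
  intro N _ _ W τ a b hW h2 h3
  constructor
  · intro x x' y y' hx hx' hy hy' hs hwx hwx'
    obtain ⟨g, hg⟩ := realize τ
    obtain ⟨X, hX1, hX2⟩ := hg 2 ![x, x'] (by
      intro k i
      fin_cases k
      · exact hx i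
      · exact hx' i)
    obtain ⟨Y, hY1, hY2⟩ := hg 2 ![y, y'] (by
      intro k i
      fin_cases k
      · exact hy i
      · exact hy' i)
    obtain ⟨k, hk⟩ := h2 2 (by norm_num) le_rfl X Y (by
      intro k
      rw [hW, hX1]
      fin_cases k
      · exact hwx
      · exact hwx') (by
      intro v
      rw [hX2, hY2]
      congr 1
      rw [Fin.sum_univ_two, Fin.sum_univ_two]
      exact hs (τ v))
    rw [hW, hY1] at hk
    fin_cases k
    · exact Or.inl hk
    · exact Or.inr hk
  · unfold TradeRobust at h3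
    push Not at h3
    obtain ⟨m, hm1, hm3, X, Y, hX, hXY, hY⟩ := h3
    have hm : m = 3 := by
      by_contra hne
      obtain ⟨k, hk⟩ := h2 m hm1 (by omega) X Y hX hXY
      exact hY k hk
    subst hm
    refine ⟨fun k => vec τ (X k), fun k => vec τ (Y k), fun k i => vec_le _ _ _,
      fun k i => vec_le _ _ _, fun k => (hW _).1 (hX k), fun k h => hY k ((hW _).2 h), fun i => ?_⟩
    have h1 := sum_vec τ X i
    have h2' := sum_vec τ Y i
    rw [Fin.sum_univ_three] at h1 h2'
    rw [h1, h2']
    exact sum_congr rfl (fun v _ => hXY v)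

end Pool.Agent.Helper74.TQ.TRADE
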