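import Pool.Agent.Helper89.TQ.Ctx

/-!
# MP_5465ec_co, Q2: one integer lemma of the core
-/

set_option autoImplicit false
set_option linter.all false
set_option maxHeartbeats 4000000

namespace Pool.Agent.Helper74.TQ

open Pool.Agent.Helper89.TQ

theorem c0_11_13_33_k2 {n1 n2 n3 A1 A2 A3 B1 B2 B3 m11_1 m11_2 m11_3 m13_1 m13_2 m13_3 m22_1 m22_2 m22_3 m23_1 m23_2 m23_3 m33_1 m33_2 m33_3 : ℤ}
    (C : Ctx0 n1 n2 n3 A1 A2 A3 B1 B2 B3 m11_1 m11_2 m11_3 m13_1 m13_2 m13_3 m22_1 m22_2 m22_3 m23_1 m23_2 m23_3 m33_1 m33_2 m33_3)
    (e0 : 0 < B1)
    (e1 : 0 < A1)
    (e2 : 0 < B3)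
    (e3 : 0 < A3)
    (s1 : 2 * A1 + 1 * B1 ≤ m11_1 + m13_1 + m33_1)
    (s2 : 2 * A2 + 1 * B2 ≤ m11_2 + m13_2 + m33_2)
    (s3 : 2 * A3 + 1 * B3 ≤ m11_3 + m13_3 + m33_3) : False := by
  have x_a2 := C.a2
  have x_a3 := C.a3
  have x_a4 := C.a4
  have x_b2 := C.b2
  have x_b3 := C.b3
  have x_b5 := C.b5
  have x_o0 := C.o0
  have x_o1 := C.o1
  have x_o2 := C.o2
  have x_t12 := C.t12
  have x_t23 := C.t23
  have x_f11_0 := C.f11_0
  have x_f11_1 := C.f11_1
  have x_f11_2 := C.f11_2
  have x_f13_0 := C.f13_0
  have x_f13_2 := C.f13_2
  have x_f13_3 := C.f13_3
  have x_f13_4 := C.f13_4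
  have x_f13_5 := C.f13_5
  have x_f13_6 := C.f13_6
  have x_f13_7 := C.f13_7
  have x_f13_8 := C.f13_8
  have x_f33_0 := C.f33_0
  have x_f33_1 := C.f33_1
  have x_f33_2 := C.f33_2
  have x_f33_4 := C.f33_4
  have x_f33_5 := C.f33_5
  have x_f33_7 := C.f33_7
  have x_f33_8 := C.f33_8
  have x_p11_33B : 2 * B1 > m11_1 + m33_1 ∨ 2 * B2 > m11_2 + m33_2 ∨ 2 * B3 > m11_3 + m33_3 := by
    have hh := C.p11_33B e0 e3
    omega
  have x_p13_33A : 2 * A1 > m13_1 + m33_1 ∨ 2 * A2 > m13_2 + m33_2 ∨ 2 * A3 > m13_3 + m33_3 := by
    have hh := C.p13_33A e1 e2 e3
    omega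
  have x_p11_13B : 2 * B1 > m11_1 + m13_1 ∨ 2 * B2 > m11_2 + m13_2 ∨ 2 * B3 > m11_3 + m13_3 := by
    have hh := C.p11_13B e0 e1 e2
    omega
  have x_p11_33A : 2 * A1 > m11_1 + m33_1 ∨ 2 * A2 > m11_2 + m33_2 ∨ 2 * A3 > m11_3 + m33_3 := by
    have hh := C.p11_33A e0 e3
    omega
  have x_tmpp : A1 + 1 > n1 ∨ A1 + 2 > A2 ∨ 1 > B1 ∨ B2 + 2 > B1 + n2 := by
    have hh := C.tmpp
    omega
  have x_tmzp : A1 + 1 > n1 ∨ A1 + 1 > A2 ∨ A2 + 1 > A3 ∨ 1 > B1 ∨ B2 + 1 > B1 + n2 ∨ B3 + 1 > B2 + n3 := by
    have hh := C.tmzp
    omega
  clear C
  rcases x_f13_2 with x_f13_2 | x_f13_2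
  · rcases x_t12 with ⟨x_t12_0, x_t12_1⟩ | ⟨x_t12_0, x_t12_1⟩
    · rcases x_t23 with ⟨x_t23_0, x_t23_1⟩ | ⟨x_t23_0, x_t23_1⟩
      · rcases x_f13_5 with x_f13_5 | x_f13_5
        · rcases x_f13_8 with x_f13_8 | x_f13_8
          · linarith only [x_b3, x_b5, x_f13_2, x_f13_5, x_f13_7, x_f13_8, x_o0]
          · rcases x_f33_2 with x_f33_2 | x_f33_2
            · rcases x_f33_5 with x_f33_5 | x_f33_5
              · rcases x_f33_8 with x_f33_8 | x_f33_8
                · linarith only [s1, s3, x_f11_0, x_f11_1, x_f11_2, x_f13_0, x_f13_7, x_f33_5, x_f33_7, x_f33_8, x_o0]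
                · rcases x_p11_33B with x_p11_33B | x_p11_33B | x_p11_33B
                  · linarith only [s1, x_f13_0, x_o0, x_p11_33B]
                  · linarith only [s1, s2, x_b3, x_f11_1, x_f13_0, x_f13_3, x_f33_5, x_o1, x_p11_33B]
                  · rcases x_p13_33A with x_p13_33A | x_p13_33A | x_p13_33A
                    · linarith only [s1, x_f11_0, x_p13_33A]
                    · linarith only [s1, x_f11_0, x_f13_5, x_f33_5, x_p13_33A, x_t12_1]
                    · rcases x_p11_13B with x_p11_13B | x_p11_13B | x_p11_13B
                      · rcases x_p11_33A with x_p11_33A | x_p11_33A | x_p11_33A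
                        · linarith only [s1, x_f11_0, x_p11_13B, x_p11_33A]
                        · linarith only [s1, x_f11_0, x_f11_1, x_f33_5, x_p11_13B, x_p11_33A, x_t12_1]
                        · linarith only [s3, x_f13_7, x_p11_33A]
                      · rcases x_p11_33A with x_p11_33A | x_p11_33A | x_p11_33A
                        · linarith only [s1, x_b3, x_f11_0, x_f11_1, x_f13_5, x_p11_13B, x_p11_33A]
                        · linarith only [s1, x_b3, x_f11_0, x_f11_1, x_f13_5, x_f33_5, x_p11_13B, x_p11_33A, x_t12_1]
                        · linarith only [s3, x_f13_7, x_p11_33A]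
                      · linarith only [s3, x_f13_8, x_p11_13B, x_p13_33A]
              · rcases x_f33_8 with x_f33_8 | x_f33_8
                · linarith only [s2, s3, x_b5, x_f11_0, x_f11_1, x_f11_2, x_f13_2, x_f13_4, x_f13_5, x_f13_6, x_f33_5, x_f33_7, x_f33_8, x_o0, x_o1]
                · rcases x_p11_33B with x_p11_33B | x_p11_33B | x_p11_33B
                  · linarith only [s1, x_f13_0, x_o0, x_p11_33B]
                  · rcases x_p13_33A with x_p13_33A | x_p13_33A | x_p13_33A
                    · linarith only [s1, x_f11_0, x_p13_33A]
                    · linarith only [s2, x_a4, x_f11_0, x_f11_1, x_f13_2, x_f13_5, x_f33_5, x_o0, x_p11_33B, x_p13_33A]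
                    · rcases x_p11_13B with x_p11_13B | x_p11_13B | x_p11_13B
                      · linarith only [s2, x_f11_0, x_f11_1, x_f13_3, x_f13_4, x_f13_8, x_f33_5, x_f33_8, x_o1, x_p11_13B, x_p11_33B, x_p13_33A]
                      · linarith only [s2, x_b3, x_f11_0, x_f11_1, x_o1, x_p11_13B, x_p11_33B]
                      · linarith only [s3, x_f13_8, x_p11_13B, x_p13_33A]
                  · rcases x_p13_33A with x_p13_33A | x_p13_33A | x_p13_33A
                    · linarith only [s1, x_f11_0, x_p13_33A]
                    · rcases x_p11_13B with x_p11_13B | x_p11_13B | x_p11_13B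
                      · rcases x_p11_33A with x_p11_33A | x_p11_33A | x_p11_33A
                        · linarith only [s1, x_f11_0, x_p11_13B, x_p11_33A]
                        · rcases x_tmpp with x_tmpp | x_tmpp | x_tmpp | x_tmpp
                          · linarith only [s1, x_f11_0, x_f13_0, x_f33_0, x_tmpp]
                          · linarith only [s1, s2, x_b2, x_f11_0, x_f11_1, x_f13_5, x_f33_1, x_f33_5, x_p13_33A, x_tmpp]
                          · linarith only [e0, x_tmpp]
                          · linarith only [s2, x_f11_0, x_f11_1, x_p13_33A, x_tmpp]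
                        · linarith only [s3, x_f13_7, x_p11_33A]
                      · linarith only [s2, x_f11_0, x_f11_1, x_f13_2, x_f13_5, x_o0, x_p11_13B, x_p13_33A]
                      · linarith only [s2, x_b5, x_f11_2, x_f13_8, x_p11_13B, x_p13_33A]
                    · rcases x_p11_13B with x_p11_13B | x_p11_13B | x_p11_13B
                      · rcases x_p11_33A with x_p11_33A | x_p11_33A | x_p11_33A
                        · linarith only [s1, x_f11_0, x_p11_13B, x_p11_33A]
                        · rcases x_tmpp with x_tmpp | x_tmpp | x_tmpp | x_tmpp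
                          · linarith only [s1, x_f11_0, x_f13_0, x_f33_0, x_tmpp]
                          · linarith only [s1, x_f11_0, x_f11_1, x_f33_1, x_f33_5, x_p11_13B, x_p11_33A, x_t12_1, x_tmpp]
                          · linarith only [e0, x_tmpp]
                          · rcases x_tmzp with x_tmzp | x_tmzp | x_tmzp | x_tmzp | x_tmzp | x_tmzp
                            · linarith only [s1, x_f11_0, x_f13_0, x_f33_0, x_tmzp]
                            · linarith only [s1, x_f11_0, x_f11_1, x_f33_1, x_f33_5, x_p11_13B, x_p11_33A, x_t12_1, x_tmzp]
                            · linarith only [s2, x_f11_0, x_f11_1, x_f13_4, x_f13_8, x_f33_4, x_f33_8, x_p13_33A, x_tmpp, x_tmzp]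
                            · linarith only [e0, x_tmzp]
                            · linarith only [s2, x_f11_0, x_f13_3, x_p11_13B, x_p11_33A, x_tmzp]
                            · linarith only [s3, x_f11_0, x_f11_1, x_f11_2, x_p13_33A, x_tmpp, x_tmzp]
                        · linarith only [s3, x_f13_7, x_p11_33A]
                      · rcases x_p11_33A with x_p11_33A | x_p11_33A | x_p11_33A
                        · linarith only [s1, x_b3, x_f11_0, x_f11_1, x_f13_5, x_p11_13B, x_p11_33A]
                        · linarith only [s2, x_b3, x_f11_0, x_f11_1, x_p11_13B, x_p11_33A]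
                        · linarith only [s3, x_f13_7, x_p11_33A]
                      · linarith only [s3, x_f13_8, x_p11_13B, x_p13_33A]
            · rcases x_f33_5 with x_f33_5 | x_f33_5
              · linarith only [x_f33_2, x_f33_4, x_f33_5, x_t12_1, x_t23_0]
              · rcases x_f33_8 with x_f33_8 | x_f33_8
                · linarith only [s2, s3, x_b5, x_f11_0, x_f11_1, x_f11_2, x_f13_2, x_f13_4, x_f13_5, x_f13_6, x_f33_5, x_f33_7, x_f33_8, x_o0, x_o1]
                · rcases x_p11_33B with x_p11_33B | x_p11_33B | x_p11_33B
                  · linarith only [s1, x_f13_0, x_o0, x_p11_33B]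
                  · rcases x_p13_33A with x_p13_33A | x_p13_33A | x_p13_33A
                    · linarith only [s1, x_f11_0, x_p13_33A]
                    · linarith only [s2, x_a4, x_f11_0, x_f11_1, x_f13_2, x_f13_5, x_f33_5, x_o0, x_p11_33B, x_p13_33A]
                    · rcases x_p11_13B with x_p11_13B | x_p11_13B | x_p11_13B
                      · linarith only [s2, x_f11_0, x_f11_1, x_f13_3, x_f13_4, x_f13_8, x_f33_5, x_f33_8, x_o1, x_p11_13B, x_p11_33B, x_p13_33A]
                      · linarith only [s2, x_b3, x_f11_0, x_f11_1, x_o1, x_p11_13B, x_p11_33B]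
                      · linarith only [s3, x_f13_8, x_p11_13B, x_p13_33A]
                  · rcases x_p13_33A with x_p13_33A | x_p13_33A | x_p13_33A
                    · linarith only [s1, x_f11_0, x_p13_33A]
                    · rcases x_p11_13B with x_p11_13B | x_p11_13B | x_p11_13B
                      · rcases x_p11_33A with x_p11_33A | x_p11_33A | x_p11_33A
                        · linarith only [s1, x_f11_0, x_p11_13B, x_p11_33A]
                        · rcases x_tmpp with x_tmpp | x_tmpp | x_tmpp | x_tmpp
                          · linarith only [s1, x_f11_0, x_f13_0, x_f33_0, x_tmpp]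
                          · linarith only [s1, s2, x_b2, x_f11_0, x_f11_1, x_f13_5, x_f33_1, x_f33_5, x_p13_33A, x_tmpp]
                          · linarith only [e0, x_tmpp]
                          · linarith only [s2, x_f11_0, x_f11_1, x_p13_33A, x_tmpp]
                        · linarith only [s3, x_f13_7, x_p11_33A]
                      · linarith only [s2, x_f11_0, x_f11_1, x_f13_2, x_f13_5, x_o0, x_p11_13B, x_p13_33A]
                      · linarith only [s2, x_b5, x_f11_2, x_f13_8, x_p11_13B, x_p13_33A]
                    · rcases x_p11_13B with x_p11_13B | x_p11_13B | x_p11_13B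
                      · rcases x_p11_33A with x_p11_33A | x_p11_33A | x_p11_33A
                        · linarith only [s1, x_f11_0, x_p11_13B, x_p11_33A]
                        · rcases x_tmpp with x_tmpp | x_tmpp | x_tmpp | x_tmpp
                          · linarith only [s1, x_f11_0, x_f13_0, x_f33_0, x_tmpp]
                          · linarith only [s1, x_f11_0, x_f11_1, x_f33_1, x_f33_5, x_p11_13B, x_p11_33A, x_t12_1, x_tmpp]
                          · linarith only [e0, x_tmpp]
                          · rcases x_tmzp with x_tmzp | x_tmzp | x_tmzp | x_tmzp | x_tmzp | x_tmzp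
                            · linarith only [s1, x_f11_0, x_f13_0, x_f33_0, x_tmzp]
                            · linarith only [s1, x_f11_0, x_f11_1, x_f33_1, x_f33_5, x_p11_13B, x_p11_33A, x_t12_1, x_tmzp]
                            · linarith only [s2, x_f11_0, x_f11_1, x_f13_4, x_f13_8, x_f33_4, x_f33_8, x_p13_33A, x_tmpp, x_tmzp]
                            · linarith only [e0, x_tmzp]
                            · linarith only [s2, x_f11_0, x_f13_3, x_p11_13B, x_p11_33A, x_tmzp]
                            · linarith only [s3, x_f11_0, x_f11_1, x_f11_2, x_p13_33A, x_tmpp, x_tmzp]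
                        · linarith only [s3, x_f13_7, x_p11_33A]
                      · rcases x_p11_33A with x_p11_33A | x_p11_33A | x_p11_33A
                        · linarith only [s1, x_b3, x_f11_0, x_f11_1, x_f13_5, x_p11_13B, x_p11_33A]
                        · linarith only [s2, x_b3, x_f11_0, x_f11_1, x_p11_13B, x_p11_33A]
                        · linarith only [s3, x_f13_7, x_p11_33A]
                      · linarith only [s3, x_f13_8, x_p11_13B, x_p13_33A]
        · rcases x_f13_8 with x_f13_8 | x_f13_8
          · linarith only [x_a4, x_b5, x_f13_5, x_f13_7, x_f13_8, x_o1, x_o2]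
          · rcases x_f33_5 with x_f33_5 | x_f33_5
            · linarith only [s1, x_f11_0, x_f13_0, x_f13_3, x_f13_5, x_f33_4, x_f33_5, x_o2]
            · rcases x_f33_8 with x_f33_8 | x_f33_8
              · linarith only [x_a4, x_b5, x_f33_5, x_f33_7, x_f33_8, x_o1, x_o2]
              · rcases x_f33_2 with x_f33_2 | x_f33_2
                · rcases x_p11_33B with x_p11_33B | x_p11_33B | x_p11_33B
                  · linarith only [s1, x_f13_0, x_o0, x_p11_33B]
                  · rcases x_p13_33A with x_p13_33A | x_p13_33A | x_p13_33A
                    · linarith only [s1, x_f11_0, x_p13_33A]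
                    · linarith only [s2, x_a4, x_f33_5, x_o1, x_p11_33B, x_p13_33A]
                    · rcases x_p11_13B with x_p11_13B | x_p11_13B | x_p11_13B
                      · linarith only [s2, x_f11_0, x_f11_1, x_f13_3, x_f13_4, x_f13_8, x_f33_5, x_f33_8, x_o1, x_p11_13B, x_p11_33B, x_p13_33A]
                      · linarith only [s2, x_b3, x_f11_0, x_f11_1, x_o1, x_p11_13B, x_p11_33B]
                      · linarith only [s3, x_f13_8, x_p11_13B, x_p13_33A]
                  · rcases x_p13_33A with x_p13_33A | x_p13_33A | x_p13_33A
                    · linarith only [s1, x_f11_0, x_p13_33A]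
                    · rcases x_p11_13B with x_p11_13B | x_p11_13B | x_p11_13B
                      · rcases x_p11_33A with x_p11_33A | x_p11_33A | x_p11_33A
                        · linarith only [s1, x_f11_0, x_p11_13B, x_p11_33A]
                        · rcases x_tmpp with x_tmpp | x_tmpp | x_tmpp | x_tmpp
                          · linarith only [s1, x_f11_0, x_f13_0, x_f33_0, x_tmpp]
                          · linarith only [s1, s3, x_f11_0, x_f13_0, x_f13_5, x_f13_7, x_f33_1, x_f33_5, x_p11_33B, x_p13_33A, x_tmpp]
                          · linarith only [e0, x_tmpp]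
                          · linarith only [s2, x_f11_0, x_f11_1, x_p13_33A, x_tmpp]
                        · linarith only [s3, x_f13_7, x_p11_33A]
                      · linarith only [s2, s3, x_f11_2, x_f13_5, x_f13_6, x_f33_4, x_f33_8, x_o1, x_p11_13B, x_p11_33B, x_p13_33A]
                      · linarith only [s2, x_b5, x_f11_2, x_f13_8, x_p11_13B, x_p13_33A]
                    · rcases x_p11_13B with x_p11_13B | x_p11_13B | x_p11_13B
                      · rcases x_p11_33A with x_p11_33A | x_p11_33A | x_p11_33A
                        · linarith only [s1, x_f11_0, x_p11_13B, x_p11_33A]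
                        · rcases x_tmpp with x_tmpp | x_tmpp | x_tmpp | x_tmpp
                          · linarith only [s1, x_f11_0, x_f13_0, x_f33_0, x_tmpp]
                          · linarith only [s1, s3, x_f11_1, x_f13_0, x_f13_3, x_f13_5, x_f13_7, x_f33_1, x_f33_5, x_p11_13B, x_p11_33A, x_p11_33B, x_tmpp]
                          · linarith only [e0, x_tmpp]
                          · rcases x_tmzp with x_tmzp | x_tmzp | x_tmzp | x_tmzp | x_tmzp | x_tmzp
                            · linarith only [s1, x_f11_0, x_f13_0, x_f33_0, x_tmzp]
                            · linarith only [s1, s3, x_f11_1, x_f13_0, x_f13_3, x_f13_5, x_f13_7, x_f33_1, x_f33_5, x_p11_13B, x_p11_33A, x_p11_33B, x_tmzp]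
                            · linarith only [s2, x_f11_0, x_f11_1, x_f13_4, x_f13_8, x_f33_4, x_f33_8, x_p13_33A, x_tmpp, x_tmzp]
                            · linarith only [e0, x_tmzp]
                            · linarith only [s2, x_f11_0, x_f13_3, x_p11_13B, x_p11_33A, x_tmzp]
                            · linarith only [s3, x_f11_0, x_f11_1, x_f11_2, x_p13_33A, x_tmpp, x_tmzp]
                        · linarith only [s3, x_f13_7, x_p11_33A]
                      · linarith only [s2, s3, x_b3, x_f11_0, x_f11_1, x_f13_5, x_f13_7, x_f33_4, x_o1, x_p11_13B, x_p11_33B]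
                      · linarith only [s3, x_f13_8, x_p11_13B, x_p13_33A]
                · rcases x_p11_33B with x_p11_33B | x_p11_33B | x_p11_33B
                  · linarith only [s1, x_f13_0, x_o0, x_p11_33B]
                  · rcases x_p13_33A with x_p13_33A | x_p13_33A | x_p13_33A
                    · linarith only [s1, x_f11_0, x_p13_33A]
                    · linarith only [s2, x_a4, x_f33_5, x_o1, x_p11_33B, x_p13_33A]
                    · rcases x_p11_13B with x_p11_13B | x_p11_13B | x_p11_13B
                      · linarith only [s2, x_f11_0, x_f11_1, x_f13_3, x_f13_4, x_f13_8, x_f33_5, x_f33_8, x_o1, x_p11_13B, x_p11_33B, x_p13_33A]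
                      · linarith only [s2, x_b3, x_f11_0, x_f11_1, x_o1, x_p11_13B, x_p11_33B]
                      · linarith only [s3, x_f13_8, x_p11_13B, x_p13_33A]
                  · rcases x_p13_33A with x_p13_33A | x_p13_33A | x_p13_33A
                    · linarith only [s1, x_f11_0, x_p13_33A]
                    · rcases x_p11_13B with x_p11_13B | x_p11_13B | x_p11_13B
                      · rcases x_p11_33A with x_p11_33A | x_p11_33A | x_p11_33A
                        · linarith only [s1, x_f11_0, x_p11_13B, x_p11_33A]
                        · rcases x_tmpp with x_tmpp | x_tmpp | x_tmpp | x_tmpp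
                          · linarith only [s1, x_f11_0, x_f13_0, x_f33_0, x_tmpp]
                          · linarith only [s1, s3, x_f11_0, x_f13_0, x_f13_5, x_f13_7, x_f33_1, x_f33_5, x_p11_33B, x_p13_33A, x_tmpp]
                          · linarith only [e0, x_tmpp]
                          · linarith only [s2, x_f11_0, x_f11_1, x_p13_33A, x_tmpp]
                        · linarith only [s3, x_f13_7, x_p11_33A]
                      · linarith only [s2, s3, x_f11_2, x_f13_5, x_f13_6, x_f33_4, x_f33_8, x_o1, x_p11_13B, x_p11_33B, x_p13_33A]
                      · linarith only [s2, x_b5, x_f11_2, x_f13_8, x_p11_13B, x_p13_33A]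
                    · rcases x_p11_13B with x_p11_13B | x_p11_13B | x_p11_13B
                      · rcases x_p11_33A with x_p11_33A | x_p11_33A | x_p11_33A
                        · linarith only [s1, x_f11_0, x_p11_13B, x_p11_33A]
                        · rcases x_tmpp with x_tmpp | x_tmpp | x_tmpp | x_tmpp
                          · linarith only [s1, x_f11_0, x_f13_0, x_f33_0, x_tmpp]
                          · linarith only [s1, s3, x_f11_1, x_f13_0, x_f13_3, x_f13_5, x_f13_7, x_f33_1, x_f33_5, x_p11_13B, x_p11_33A, x_p11_33B, x_tmpp]
                          · linarith only [e0, x_tmpp]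
                          · rcases x_tmzp with x_tmzp | x_tmzp | x_tmzp | x_tmzp | x_tmzp | x_tmzp
                            · linarith only [s1, x_f11_0, x_f13_0, x_f33_0, x_tmzp]
                            · linarith only [s1, s3, x_f11_1, x_f13_0, x_f13_3, x_f13_5, x_f13_7, x_f33_1, x_f33_5, x_p11_13B, x_p11_33A, x_p11_33B, x_tmzp]
                            · linarith only [s2, x_f11_0, x_f11_1, x_f13_4, x_f13_8, x_f33_4, x_f33_8, x_p13_33A, x_tmpp, x_tmzp]
                            · linarith only [e0, x_tmzp]
                            · linarith only [s2, x_f11_0, x_f13_3, x_p11_13B, x_p11_33A, x_tmzp]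
                            · linarith only [s3, x_f11_0, x_f11_1, x_f11_2, x_p13_33A, x_tmpp, x_tmzp]
                        · linarith only [s3, x_f13_7, x_p11_33A]
                      · linarith only [s2, s3, x_b3, x_f11_0, x_f11_1, x_f13_5, x_f13_7, x_f33_4, x_o1, x_p11_13B, x_p11_33B]
                      · linarith only [s3, x_f13_8, x_p11_13B, x_p13_33A]
      · rcases x_f13_5 with x_f13_5 | x_f13_5
        · rcases x_f13_8 with x_f13_8 | x_f13_8
          · linarith only [x_b3, x_f13_2, x_f13_5, x_f13_7, x_f13_8, x_o0, x_t23_1]
          · rcases x_f33_2 with x_f33_2 | x_f33_2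
            · rcases x_f33_5 with x_f33_5 | x_f33_5
              · rcases x_f33_8 with x_f33_8 | x_f33_8
                · linarith only [s1, s2, x_f11_0, x_f11_1, x_f13_0, x_f13_3, x_f33_5, x_f33_7, x_f33_8, x_o0, x_o1, x_o2, x_t23_1]
                · rcases x_p11_33B with x_p11_33B | x_p11_33B | x_p11_33B
                  · linarith only [s1, x_f13_0, x_o0, x_p11_33B]
                  · linarith only [s1, s2, x_b3, x_f11_1, x_f13_0, x_f13_3, x_f33_5, x_o1, x_p11_33B]
                  · rcases x_p13_33A with x_p13_33A | x_p13_33A | x_p13_33A
                    · linarith only [s1, x_f11_0, x_p13_33A]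
                    · linarith only [s1, x_f11_0, x_f13_5, x_f33_5, x_p13_33A, x_t12_1]
                    · rcases x_p11_13B with x_p11_13B | x_p11_13B | x_p11_13B
                      · rcases x_p11_33A with x_p11_33A | x_p11_33A | x_p11_33A
                        · linarith only [s1, x_f11_0, x_p11_13B, x_p11_33A]
                        · linarith only [s1, x_f11_0, x_f11_1, x_f33_5, x_p11_13B, x_p11_33A, x_t12_1]
                        · linarith only [s3, x_f13_7, x_p11_33A]
                      · rcases x_p11_33A with x_p11_33A | x_p11_33A | x_p11_33A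
                        · linarith only [s1, x_b3, x_f11_0, x_f11_1, x_f13_5, x_p11_13B, x_p11_33A]
                        · linarith only [s2, x_b3, x_f11_0, x_f11_1, x_p11_13B, x_p11_33A]
                        · linarith only [s3, x_f13_7, x_p11_33A]
                      · linarith only [s3, x_f13_8, x_p11_13B, x_p13_33A]
              · rcases x_f33_8 with x_f33_8 | x_f33_8
                · linarith only [s2, x_f11_0, x_f11_1, x_f13_2, x_f13_4, x_f13_5, x_f33_5, x_f33_7, x_f33_8, x_o0, x_o1, x_o2, x_t23_1]
                · rcases x_p11_33B with x_p11_33B | x_p11_33B | x_p11_33B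
                  · linarith only [s1, x_f13_0, x_o0, x_p11_33B]
                  · rcases x_p13_33A with x_p13_33A | x_p13_33A | x_p13_33A
                    · linarith only [s1, x_f11_0, x_p13_33A]
                    · linarith only [s2, x_a4, x_f11_0, x_f11_1, x_f13_2, x_f13_5, x_f33_5, x_o0, x_p11_33B, x_p13_33A]
                    · rcases x_p11_13B with x_p11_13B | x_p11_13B | x_p11_13B
                      · linarith only [s2, x_f11_0, x_f11_1, x_f13_3, x_f13_4, x_f13_8, x_f33_5, x_f33_8, x_o1, x_p11_13B, x_p11_33B, x_p13_33A]
                      · linarith only [s2, x_b3, x_f11_0, x_f11_1, x_o1, x_p11_13B, x_p11_33B]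
                      · linarith only [s3, x_f13_8, x_p11_13B, x_p13_33A]
                  · rcases x_p13_33A with x_p13_33A | x_p13_33A | x_p13_33A
                    · linarith only [s1, x_f11_0, x_p13_33A]
                    · rcases x_p11_13B with x_p11_13B | x_p11_13B | x_p11_13B
                      · rcases x_p11_33A with x_p11_33A | x_p11_33A | x_p11_33A
                        · linarith only [s1, x_f11_0, x_p11_13B, x_p11_33A]
                        · rcases x_tmpp with x_tmpp | x_tmpp | x_tmpp | x_tmpp
                          · linarith only [s1, x_f11_0, x_f13_0, x_f33_0, x_tmpp]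
                          · linarith only [s1, s2, x_f11_0, x_f11_1, x_f13_5, x_f33_1, x_f33_5, x_p13_33A, x_t23_0, x_tmpp]
                          · linarith only [e0, x_tmpp]
                          · linarith only [s2, x_f11_0, x_f11_1, x_p13_33A, x_tmpp]
                        · linarith only [s3, x_f13_7, x_p11_33A]
                      · linarith only [s2, x_f11_0, x_f11_1, x_f13_2, x_f13_5, x_o0, x_p11_13B, x_p13_33A]
                      · linarith only [s2, x_f11_2, x_f13_8, x_p11_13B, x_p13_33A, x_t23_1]
                    · rcases x_p11_13B with x_p11_13B | x_p11_13B | x_p11_13B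
                      · rcases x_p11_33A with x_p11_33A | x_p11_33A | x_p11_33A
                        · linarith only [s1, x_f11_0, x_p11_13B, x_p11_33A]
                        · rcases x_tmpp with x_tmpp | x_tmpp | x_tmpp | x_tmpp
                          · linarith only [s1, x_f11_0, x_f13_0, x_f33_0, x_tmpp]
                          · linarith only [s1, x_f11_0, x_f11_1, x_f33_1, x_f33_5, x_p11_13B, x_p11_33A, x_t12_1, x_tmpp]
                          · linarith only [e0, x_tmpp]
                          · rcases x_tmzp with x_tmzp | x_tmzp | x_tmzp | x_tmzp | x_tmzp | x_tmzp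
                            · linarith only [s1, x_f11_0, x_f13_0, x_f33_0, x_tmzp]
                            · linarith only [s1, s2, x_f11_0, x_f11_1, x_f13_3, x_f33_1, x_f33_5, x_p11_13B, x_p11_33A, x_t23_0, x_tmzp]
                            · linarith only [s2, x_f11_0, x_f11_1, x_f13_4, x_f13_8, x_f33_4, x_f33_8, x_p13_33A, x_tmpp, x_tmzp]
                            · linarith only [e0, x_tmzp]
                            · linarith only [s2, x_f11_0, x_f13_3, x_p11_13B, x_p11_33A, x_tmzp]
                            · linarith only [x_t23_1, x_tmzp]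
                        · linarith only [s3, x_f13_7, x_p11_33A]
                      · rcases x_p11_33A with x_p11_33A | x_p11_33A | x_p11_33A
                        · linarith only [s1, x_b3, x_f11_0, x_f11_1, x_f13_5, x_p11_13B, x_p11_33A]
                        · linarith only [s2, x_b3, x_f11_0, x_f11_1, x_p11_13B, x_p11_33A]
                        · linarith only [s3, x_f13_7, x_p11_33A]
                      · linarith only [s3, x_f13_8, x_p11_13B, x_p13_33A]
            · rcases x_f33_5 with x_f33_5 | x_f33_5
              · linarith only [x_a2, x_f33_2, x_f33_4, x_f33_5, x_t12_1]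
              · rcases x_f33_8 with x_f33_8 | x_f33_8
                · linarith only [s2, x_f11_0, x_f11_1, x_f13_2, x_f13_4, x_f13_5, x_f33_5, x_f33_7, x_f33_8, x_o0, x_o1, x_o2, x_t23_1]
                · rcases x_p11_33B with x_p11_33B | x_p11_33B | x_p11_33B
                  · linarith only [s1, x_f13_0, x_o0, x_p11_33B]
                  · rcases x_p13_33A with x_p13_33A | x_p13_33A | x_p13_33A
                    · linarith only [s1, x_f11_0, x_p13_33A]
                    · linarith only [s2, x_a4, x_f11_0, x_f11_1, x_f13_2, x_f13_5, x_f33_5, x_o0, x_p11_33B, x_p13_33A]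
                    · rcases x_p11_13B with x_p11_13B | x_p11_13B | x_p11_13B
                      · linarith only [s2, x_f11_0, x_f11_1, x_f13_3, x_f13_4, x_f13_8, x_f33_5, x_f33_8, x_o1, x_p11_13B, x_p11_33B, x_p13_33A]
                      · linarith only [s2, x_b3, x_f11_0, x_f11_1, x_o1, x_p11_13B, x_p11_33B]
                      · linarith only [s3, x_f13_8, x_p11_13B, x_p13_33A]
                  · rcases x_p13_33A with x_p13_33A | x_p13_33A | x_p13_33A
                    · linarith only [s1, x_f11_0, x_p13_33A]
                    · rcases x_p11_13B with x_p11_13B | x_p11_13B | x_p11_13B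
                      · rcases x_p11_33A with x_p11_33A | x_p11_33A | x_p11_33A
                        · linarith only [s1, x_f11_0, x_p11_13B, x_p11_33A]
                        · rcases x_tmpp with x_tmpp | x_tmpp | x_tmpp | x_tmpp
                          · linarith only [s1, x_f11_0, x_f13_0, x_f33_0, x_tmpp]
                          · linarith only [s1, s2, x_f11_0, x_f11_1, x_f13_5, x_f33_1, x_f33_5, x_p13_33A, x_t23_0, x_tmpp]
                          · linarith only [e0, x_tmpp]
                          · linarith only [s2, x_f11_0, x_f11_1, x_p13_33A, x_tmpp]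
                        · linarith only [s3, x_f13_7, x_p11_33A]
                      · linarith only [s2, x_f11_0, x_f11_1, x_f13_2, x_f13_5, x_o0, x_p11_13B, x_p13_33A]
                      · linarith only [s2, x_f11_2, x_f13_8, x_p11_13B, x_p13_33A, x_t23_1]
                    · rcases x_p11_13B with x_p11_13B | x_p11_13B | x_p11_13B
                      · rcases x_p11_33A with x_p11_33A | x_p11_33A | x_p11_33A
                        · linarith only [s1, x_f11_0, x_p11_13B, x_p11_33A]
                        · rcases x_tmpp with x_tmpp | x_tmpp | x_tmpp | x_tmpp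
                          · linarith only [s1, x_f11_0, x_f13_0, x_f33_0, x_tmpp]
                          · linarith only [s1, x_f11_0, x_f11_1, x_f33_1, x_f33_5, x_p11_13B, x_p11_33A, x_t12_1, x_tmpp]
                          · linarith only [e0, x_tmpp]
                          · rcases x_tmzp with x_tmzp | x_tmzp | x_tmzp | x_tmzp | x_tmzp | x_tmzp
                            · linarith only [s1, x_f11_0, x_f13_0, x_f33_0, x_tmzp]
                            · linarith only [s1, s2, x_f11_0, x_f11_1, x_f13_3, x_f33_1, x_f33_5, x_p11_13B, x_p11_33A, x_t23_0, x_tmzp]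
                            · linarith only [s2, x_f11_0, x_f11_1, x_f13_4, x_f13_8, x_f33_4, x_f33_8, x_p13_33A, x_tmpp, x_tmzp]
                            · linarith only [e0, x_tmzp]
                            · linarith only [s2, x_f11_0, x_f13_3, x_p11_13B, x_p11_33A, x_tmzp]
                            · linarith only [x_t23_1, x_tmzp]
                        · linarith only [s3, x_f13_7, x_p11_33A]
                      · rcases x_p11_33A with x_p11_33A | x_p11_33A | x_p11_33A
                        · linarith only [s1, x_b3, x_f11_0, x_f11_1, x_f13_5, x_p11_13B, x_p11_33A]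
                        · linarith only [s2, x_b3, x_f11_0, x_f11_1, x_p11_13B, x_p11_33A]
                        · linarith only [s3, x_f13_7, x_p11_33A]
                      · linarith only [s3, x_f13_8, x_p11_13B, x_p13_33A]
        · rcases x_f13_8 with x_f13_8 | x_f13_8
          · linarith only [x_a4, x_f13_5, x_f13_7, x_f13_8, x_o1, x_o2, x_t23_1]
          · rcases x_f33_5 with x_f33_5 | x_f33_5
            · linarith only [s1, x_f11_0, x_f13_0, x_f13_3, x_f13_5, x_f33_4, x_f33_5, x_o2]
            · rcases x_f33_8 with x_f33_8 | x_f33_8
              · linarith only [x_a4, x_f33_5, x_f33_7, x_f33_8, x_o1, x_o2, x_t23_1]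
              · rcases x_f33_2 with x_f33_2 | x_f33_2
                · rcases x_p11_33B with x_p11_33B | x_p11_33B | x_p11_33B
                  · linarith only [s1, x_f13_0, x_o0, x_p11_33B]
                  · rcases x_p13_33A with x_p13_33A | x_p13_33A | x_p13_33A
                    · linarith only [s1, x_f11_0, x_p13_33A]
                    · linarith only [s2, x_a4, x_f33_5, x_o1, x_p11_33B, x_p13_33A]
                    · rcases x_p11_13B with x_p11_13B | x_p11_13B | x_p11_13B
                      · linarith only [s2, x_f11_0, x_f11_1, x_f13_3, x_f13_4, x_f13_8, x_f33_5, x_f33_8, x_o1, x_p11_13B, x_p11_33B, x_p13_33A]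
                      · linarith only [s2, x_b3, x_f11_0, x_f11_1, x_f13_5, x_f33_4, x_o1, x_o2, x_p11_13B]
                      · linarith only [s3, x_f13_8, x_p11_13B, x_p13_33A]
                  · rcases x_p13_33A with x_p13_33A | x_p13_33A | x_p13_33A
                    · linarith only [s1, x_f11_0, x_p13_33A]
                    · linarith only [s2, x_a4, x_f11_2, x_f13_5, x_f33_5, x_f33_8, x_p11_33B, x_p13_33A, x_t23_1]
                    · rcases x_p11_13B with x_p11_13B | x_p11_13B | x_p11_13B
                      · rcases x_p11_33A with x_p11_33A | x_p11_33A | x_p11_33A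
                        · linarith only [s1, x_f11_0, x_p11_13B, x_p11_33A]
                        · rcases x_tmpp with x_tmpp | x_tmpp | x_tmpp | x_tmpp
                          · linarith only [s1, x_f11_0, x_f13_0, x_f33_0, x_tmpp]
                          · linarith only [s1, s3, x_f11_1, x_f13_0, x_f13_3, x_f13_5, x_f13_7, x_f33_1, x_f33_5, x_p11_13B, x_p11_33A, x_p11_33B, x_tmpp]
                          · linarith only [e0, x_tmpp]
                          · rcases x_tmzp with x_tmzp | x_tmzp | x_tmzp | x_tmzp | x_tmzp | x_tmzp
                            · linarith only [s1, x_f11_0, x_f13_0, x_f33_0, x_tmzp]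
                            · linarith only [s1, s3, x_f11_1, x_f13_0, x_f13_3, x_f13_5, x_f13_7, x_f33_1, x_f33_5, x_p11_13B, x_p11_33A, x_p11_33B, x_tmzp]
                            · linarith only [s2, x_f11_0, x_f11_1, x_f13_4, x_f13_8, x_f33_4, x_f33_8, x_p13_33A, x_tmpp, x_tmzp]
                            · linarith only [e0, x_tmzp]
                            · linarith only [s2, x_f11_0, x_f13_3, x_p11_13B, x_p11_33A, x_tmzp]
                            · linarith only [x_t23_1, x_tmzp]
                        · linarith only [s3, x_f13_7, x_p11_33A]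
                      · linarith only [s2, s3, x_b3, x_f11_0, x_f11_1, x_f13_5, x_f13_7, x_f33_4, x_o1, x_p11_13B, x_p11_33B]
                      · linarith only [s3, x_f13_8, x_p11_13B, x_p13_33A]
                · rcases x_p11_33B with x_p11_33B | x_p11_33B | x_p11_33B
                  · linarith only [s1, x_f13_0, x_o0, x_p11_33B]
                  · rcases x_p13_33A with x_p13_33A | x_p13_33A | x_p13_33A
                    · linarith only [s1, x_f11_0, x_p13_33A]
                    · linarith only [s2, x_a4, x_f33_5, x_o1, x_p11_33B, x_p13_33A]
                    · rcases x_p11_13B with x_p11_13B | x_p11_13B | x_p11_13B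
                      · linarith only [s2, x_f11_0, x_f11_1, x_f13_3, x_f13_4, x_f13_8, x_f33_5, x_f33_8, x_o1, x_p11_13B, x_p11_33B, x_p13_33A]
                      · linarith only [s2, x_b3, x_f11_0, x_f11_1, x_f13_5, x_f33_4, x_o1, x_o2, x_p11_13B]
                      · linarith only [s3, x_f13_8, x_p11_13B, x_p13_33A]
                  · rcases x_p13_33A with x_p13_33A | x_p13_33A | x_p13_33A
                    · linarith only [s1, x_f11_0, x_p13_33A]
                    · linarith only [s2, x_a4, x_f11_2, x_f13_5, x_f33_5, x_f33_8, x_p11_33B, x_p13_33A, x_t23_1]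
                    · rcases x_p11_13B with x_p11_13B | x_p11_13B | x_p11_13B
                      · rcases x_p11_33A with x_p11_33A | x_p11_33A | x_p11_33A
                        · linarith only [s1, x_f11_0, x_p11_13B, x_p11_33A]
                        · rcases x_tmpp with x_tmpp | x_tmpp | x_tmpp | x_tmpp
                          · linarith only [s1, x_f11_0, x_f13_0, x_f33_0, x_tmpp]
                          · linarith only [s1, s3, x_f11_1, x_f13_0, x_f13_3, x_f13_5, x_f13_7, x_f33_1, x_f33_5, x_p11_13B, x_p11_33A, x_p11_33B, x_tmpp]
                          · linarith only [e0, x_tmpp]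
                          · rcases x_tmzp with x_tmzp | x_tmzp | x_tmzp | x_tmzp | x_tmzp | x_tmzp
                            · linarith only [s1, x_f11_0, x_f13_0, x_f33_0, x_tmzp]
                            · linarith only [s1, s3, x_f11_1, x_f13_0, x_f13_3, x_f13_5, x_f13_7, x_f33_1, x_f33_5, x_p11_13B, x_p11_33A, x_p11_33B, x_tmzp]
                            · linarith only [s2, x_f11_0, x_f11_1, x_f13_4, x_f13_8, x_f33_4, x_f33_8, x_p13_33A, x_tmpp, x_tmzp]
                            · linarith only [e0, x_tmzp]
                            · linarith only [s2, x_f11_0, x_f13_3, x_p11_13B, x_p11_33A, x_tmzp]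
                            · linarith only [x_t23_1, x_tmzp]
                        · linarith only [s3, x_f13_7, x_p11_33A]
                      · linarith only [s2, s3, x_b3, x_f11_0, x_f11_1, x_f13_5, x_f13_7, x_f33_4, x_o1, x_p11_13B, x_p11_33B]
                      · linarith only [s3, x_f13_8, x_p11_13B, x_p13_33A]
    · rcases x_t23 with ⟨x_t23_0, x_t23_1⟩ | ⟨x_t23_0, x_t23_1⟩
      · rcases x_f13_5 with x_f13_5 | x_f13_5
        · rcases x_f13_8 with x_f13_8 | x_f13_8
          · linarith only [x_b5, x_f13_2, x_f13_5, x_f13_7, x_f13_8, x_o0, x_t12_1]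
          · rcases x_f33_2 with x_f33_2 | x_f33_2
            · rcases x_f33_5 with x_f33_5 | x_f33_5
              · rcases x_f33_8 with x_f33_8 | x_f33_8
                · linarith only [s1, s3, x_f11_0, x_f11_1, x_f11_2, x_f13_0, x_f13_7, x_f33_5, x_f33_7, x_f33_8, x_o0]
                · rcases x_p11_33B with x_p11_33B | x_p11_33B | x_p11_33B
                  · linarith only [s1, x_f13_0, x_o0, x_p11_33B]
                  · linarith only [s1, x_f11_1, x_f13_0, x_f33_5, x_o0, x_p11_33B, x_t12_1]
                  · rcases x_p13_33A with x_p13_33A | x_p13_33A | x_p13_33A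
                    · linarith only [s1, x_f11_0, x_p13_33A]
                    · linarith only [s1, x_a3, x_f11_0, x_f13_5, x_f33_5, x_p13_33A]
                    · rcases x_p11_13B with x_p11_13B | x_p11_13B | x_p11_13B
                      · rcases x_p11_33A with x_p11_33A | x_p11_33A | x_p11_33A
                        · linarith only [s1, x_f11_0, x_p11_13B, x_p11_33A]
                        · linarith only [s1, x_a3, x_f11_0, x_f11_1, x_f33_5, x_p11_13B, x_p11_33A]
                        · linarith only [s3, x_f13_7, x_p11_33A]
                      · linarith only [x_f11_0, x_f11_1, x_f13_2, x_f13_5, x_o0, x_p11_13B, x_t12_1]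
                      · linarith only [s3, x_f13_8, x_p11_13B, x_p13_33A]
              · rcases x_f33_8 with x_f33_8 | x_f33_8
                · linarith only [s2, s3, x_b5, x_f11_0, x_f11_1, x_f11_2, x_f13_2, x_f13_4, x_f13_5, x_f13_6, x_f33_5, x_f33_7, x_f33_8, x_o0, x_o1]
                · rcases x_p11_33B with x_p11_33B | x_p11_33B | x_p11_33B
                  · linarith only [s1, x_f13_0, x_o0, x_p11_33B]
                  · rcases x_p13_33A with x_p13_33A | x_p13_33A | x_p13_33A
                    · linarith only [s1, x_f11_0, x_p13_33A]
                    · linarith only [s2, x_a4, x_f11_0, x_f11_1, x_f13_2, x_f13_5, x_f33_5, x_o0, x_p11_33B, x_p13_33A]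
                    · linarith only [s2, x_f11_0, x_f11_1, x_f13_4, x_f13_8, x_f33_5, x_f33_8, x_o1, x_p11_33B, x_p13_33A, x_t12_1]
                  · rcases x_p13_33A with x_p13_33A | x_p13_33A | x_p13_33A
                    · linarith only [s1, x_f11_0, x_p13_33A]
                    · rcases x_p11_13B with x_p11_13B | x_p11_13B | x_p11_13B
                      · rcases x_p11_33A with x_p11_33A | x_p11_33A | x_p11_33A
                        · linarith only [s1, x_f11_0, x_p11_13B, x_p11_33A]
                        · rcases x_tmpp with x_tmpp | x_tmpp | x_tmpp | x_tmpp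
                          · linarith only [s1, x_f11_0, x_f13_0, x_f33_0, x_tmpp]
                          · linarith only [s1, s2, x_b2, x_f11_0, x_f11_1, x_f13_5, x_f33_1, x_f33_5, x_p13_33A, x_tmpp]
                          · linarith only [e0, x_tmpp]
                          · linarith only [s2, x_f11_0, x_f11_1, x_p13_33A, x_tmpp]
                        · linarith only [s3, x_f13_7, x_p11_33A]
                      · linarith only [s2, x_f11_0, x_f11_1, x_f13_2, x_f13_5, x_o0, x_p11_13B, x_p13_33A]
                      · linarith only [s2, x_b5, x_f11_2, x_f13_8, x_p11_13B, x_p13_33A]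
                    · rcases x_p11_13B with x_p11_13B | x_p11_13B | x_p11_13B
                      · rcases x_p11_33A with x_p11_33A | x_p11_33A | x_p11_33A
                        · linarith only [s1, x_f11_0, x_p11_13B, x_p11_33A]
                        · rcases x_tmpp with x_tmpp | x_tmpp | x_tmpp | x_tmpp
                          · linarith only [s1, x_f11_0, x_f13_0, x_f33_0, x_tmpp]
                          · rcases x_tmzp with x_tmzp | x_tmzp | x_tmzp | x_tmzp | x_tmzp | x_tmzp
                            · linarith only [s1, x_f11_0, x_f13_0, x_f33_0, x_tmzp]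
                            · linarith only [s1, x_b2, x_f11_0, x_f11_1, x_f33_1, x_f33_5, x_p11_13B, x_p11_33A, x_t12_1, x_tmzp]
                            · linarith only [s1, x_f11_0, x_f13_0, x_f33_1, x_tmpp, x_tmzp]
                            · linarith only [e0, x_tmzp]
                            · linarith only [x_t12_1, x_tmzp]
                            · linarith only [s1, s3, x_b2, x_f11_2, x_f33_1, x_f33_5, x_p11_13B, x_p11_33A, x_p13_33A, x_tmpp, x_tmzp]
                          · linarith only [e0, x_tmpp]
                          · rcases x_tmzp with x_tmzp | x_tmzp | x_tmzp | x_tmzp | x_tmzp | x_tmzp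
                            · linarith only [s1, x_f11_0, x_f13_0, x_f33_0, x_tmzp]
                            · linarith only [s1, x_b2, x_f11_0, x_f11_1, x_f33_1, x_f33_5, x_p11_13B, x_p11_33A, x_t12_1, x_tmzp]
                            · linarith only [s2, x_f11_0, x_f11_1, x_f13_4, x_f13_8, x_f33_4, x_f33_8, x_p13_33A, x_tmpp, x_tmzp]
                            · linarith only [e0, x_tmzp]
                            · linarith only [x_t12_1, x_tmzp]
                            · linarith only [s3, x_f11_0, x_f11_1, x_f11_2, x_p13_33A, x_tmpp, x_tmzp]
                        · linarith only [s3, x_f13_7, x_p11_33A]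
                      · linarith only [x_f11_0, x_f11_1, x_f13_2, x_f13_5, x_o0, x_p11_13B, x_t12_1]
                      · linarith only [s3, x_f13_8, x_p11_13B, x_p13_33A]
            · rcases x_f33_5 with x_f33_5 | x_f33_5
              · linarith only [x_a3, x_f33_2, x_f33_4, x_f33_5, x_t23_0]
              · rcases x_f33_8 with x_f33_8 | x_f33_8
                · linarith only [s2, s3, x_b5, x_f11_0, x_f11_1, x_f11_2, x_f13_2, x_f13_4, x_f13_5, x_f13_6, x_f33_5, x_f33_7, x_f33_8, x_o0, x_o1]
                · rcases x_p11_33B with x_p11_33B | x_p11_33B | x_p11_33B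
                  · linarith only [s1, x_f13_0, x_o0, x_p11_33B]
                  · rcases x_p13_33A with x_p13_33A | x_p13_33A | x_p13_33A
                    · linarith only [s1, x_f11_0, x_p13_33A]
                    · linarith only [s2, x_a4, x_f11_0, x_f11_1, x_f13_2, x_f13_5, x_f33_5, x_o0, x_p11_33B, x_p13_33A]
                    · linarith only [s2, x_f11_0, x_f11_1, x_f13_4, x_f13_8, x_f33_5, x_f33_8, x_o1, x_p11_33B, x_p13_33A, x_t12_1]
                  · rcases x_p13_33A with x_p13_33A | x_p13_33A | x_p13_33A
                    · linarith only [s1, x_f11_0, x_p13_33A]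
                    · rcases x_p11_13B with x_p11_13B | x_p11_13B | x_p11_13B
                      · rcases x_p11_33A with x_p11_33A | x_p11_33A | x_p11_33A
                        · linarith only [s1, x_f11_0, x_p11_13B, x_p11_33A]
                        · rcases x_tmpp with x_tmpp | x_tmpp | x_tmpp | x_tmpp
                          · linarith only [s1, x_f11_0, x_f13_0, x_f33_0, x_tmpp]
                          · linarith only [s1, s2, x_b2, x_f11_0, x_f11_1, x_f13_5, x_f33_1, x_f33_5, x_p13_33A, x_tmpp]
                          · linarith only [e0, x_tmpp]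
                          · linarith only [s2, x_f11_0, x_f11_1, x_p13_33A, x_tmpp]
                        · linarith only [s3, x_f13_7, x_p11_33A]
                      · linarith only [s2, x_f11_0, x_f11_1, x_f13_2, x_f13_5, x_o0, x_p11_13B, x_p13_33A]
                      · linarith only [s2, x_b5, x_f11_2, x_f13_8, x_p11_13B, x_p13_33A]
                    · rcases x_p11_13B with x_p11_13B | x_p11_13B | x_p11_13B
                      · rcases x_p11_33A with x_p11_33A | x_p11_33A | x_p11_33A
                        · linarith only [s1, x_f11_0, x_p11_13B, x_p11_33A]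
                        · rcases x_tmpp with x_tmpp | x_tmpp | x_tmpp | x_tmpp
                          · linarith only [s1, x_f11_0, x_f13_0, x_f33_0, x_tmpp]
                          · rcases x_tmzp with x_tmzp | x_tmzp | x_tmzp | x_tmzp | x_tmzp | x_tmzp
                            · linarith only [s1, x_f11_0, x_f13_0, x_f33_0, x_tmzp]
                            · linarith only [s1, x_b2, x_f11_0, x_f11_1, x_f33_1, x_f33_5, x_p11_13B, x_p11_33A, x_t12_1, x_tmzp]
                            · linarith only [s1, x_f11_0, x_f13_0, x_f33_1, x_tmpp, x_tmzp]
                            · linarith only [e0, x_tmzp]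
                            · linarith only [x_t12_1, x_tmzp]
                            · linarith only [s1, s3, x_b2, x_f11_2, x_f33_1, x_f33_5, x_p11_13B, x_p11_33A, x_p13_33A, x_tmpp, x_tmzp]
                          · linarith only [e0, x_tmpp]
                          · rcases x_tmzp with x_tmzp | x_tmzp | x_tmzp | x_tmzp | x_tmzp | x_tmzp
                            · linarith only [s1, x_f11_0, x_f13_0, x_f33_0, x_tmzp]
                            · linarith only [s1, x_b2, x_f11_0, x_f11_1, x_f33_1, x_f33_5, x_p11_13B, x_p11_33A, x_t12_1, x_tmzp]
                            · linarith only [s2, x_f11_0, x_f11_1, x_f13_4, x_f13_8, x_f33_4, x_f33_8, x_p13_33A, x_tmpp, x_tmzp]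
                            · linarith only [e0, x_tmzp]
                            · linarith only [x_t12_1, x_tmzp]
                            · linarith only [s3, x_f11_0, x_f11_1, x_f11_2, x_p13_33A, x_tmpp, x_tmzp]
                        · linarith only [s3, x_f13_7, x_p11_33A]
                      · linarith only [x_f11_0, x_f11_1, x_f13_2, x_f13_5, x_o0, x_p11_13B, x_t12_1]
                      · linarith only [s3, x_f13_8, x_p11_13B, x_p13_33A]
        · rcases x_f13_8 with x_f13_8 | x_f13_8
          · linarith only [x_a4, x_b5, x_f13_5, x_f13_7, x_f13_8, x_o1, x_o2]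
          · rcases x_f33_5 with x_f33_5 | x_f33_5
            · linarith only [s1, x_f11_0, x_f13_0, x_f13_3, x_f13_5, x_f33_4, x_f33_5, x_o2]
            · rcases x_f33_8 with x_f33_8 | x_f33_8
              · linarith only [x_a4, x_b5, x_f33_5, x_f33_7, x_f33_8, x_o1, x_o2]
              · rcases x_f33_2 with x_f33_2 | x_f33_2
                · rcases x_p11_33B with x_p11_33B | x_p11_33B | x_p11_33B
                  · linarith only [s1, x_f13_0, x_o0, x_p11_33B]
                  · rcases x_p13_33A with x_p13_33A | x_p13_33A | x_p13_33A
                    · linarith only [s1, x_f11_0, x_p13_33A]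
                    · linarith only [s2, x_a4, x_f33_5, x_o1, x_p11_33B, x_p13_33A]
                    · linarith only [s2, x_f11_0, x_f11_1, x_f13_4, x_f13_8, x_f33_5, x_f33_8, x_o1, x_p11_33B, x_p13_33A, x_t12_1]
                  · rcases x_p13_33A with x_p13_33A | x_p13_33A | x_p13_33A
                    · linarith only [s1, x_f11_0, x_p13_33A]
                    · rcases x_p11_13B with x_p11_13B | x_p11_13B | x_p11_13B
                      · rcases x_p11_33A with x_p11_33A | x_p11_33A | x_p11_33A
                        · linarith only [s1, x_f11_0, x_p11_13B, x_p11_33A]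
                        · rcases x_tmpp with x_tmpp | x_tmpp | x_tmpp | x_tmpp
                          · linarith only [s1, x_f11_0, x_f13_0, x_f33_0, x_tmpp]
                          · linarith only [s1, s3, x_f11_0, x_f13_0, x_f13_5, x_f13_7, x_f33_1, x_f33_5, x_p11_33B, x_p13_33A, x_tmpp]
                          · linarith only [e0, x_tmpp]
                          · linarith only [s2, x_f11_0, x_f11_1, x_p13_33A, x_tmpp]
                        · linarith only [s3, x_f13_7, x_p11_33A]
                      · linarith only [s2, s3, x_f11_2, x_f13_5, x_f13_6, x_f33_4, x_f33_8, x_o1, x_p11_13B, x_p11_33B, x_p13_33A]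
                      · linarith only [s2, x_b5, x_f11_2, x_f13_8, x_p11_13B, x_p13_33A]
                    · rcases x_p11_13B with x_p11_13B | x_p11_13B | x_p11_13B
                      · rcases x_p11_33A with x_p11_33A | x_p11_33A | x_p11_33A
                        · linarith only [s1, x_f11_0, x_p11_13B, x_p11_33A]
                        · rcases x_tmpp with x_tmpp | x_tmpp | x_tmpp | x_tmpp
                          · linarith only [s1, x_f11_0, x_f13_0, x_f33_0, x_tmpp]
                          · linarith only [s1, s3, x_f11_1, x_f13_0, x_f13_3, x_f13_5, x_f13_7, x_f33_1, x_f33_5, x_p11_13B, x_p11_33A, x_p11_33B, x_tmpp]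
                          · linarith only [e0, x_tmpp]
                          · rcases x_tmzp with x_tmzp | x_tmzp | x_tmzp | x_tmzp | x_tmzp | x_tmzp
                            · linarith only [s1, x_f11_0, x_f13_0, x_f33_0, x_tmzp]
                            · linarith only [s1, s3, x_f11_1, x_f13_0, x_f13_3, x_f13_5, x_f13_7, x_f33_1, x_f33_5, x_p11_13B, x_p11_33A, x_p11_33B, x_tmzp]
                            · linarith only [s2, x_f11_0, x_f11_1, x_f13_4, x_f13_8, x_f33_4, x_f33_8, x_p13_33A, x_tmpp, x_tmzp]
                            · linarith only [e0, x_tmzp]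
                            · linarith only [x_t12_1, x_tmzp]
                            · linarith only [s3, x_f11_0, x_f11_1, x_f11_2, x_p13_33A, x_tmpp, x_tmzp]
                        · linarith only [s3, x_f13_7, x_p11_33A]
                      · linarith only [s2, s3, x_f11_0, x_f11_1, x_f13_5, x_f13_7, x_f33_4, x_o1, x_p11_13B, x_p11_33B, x_t12_1]
                      · linarith only [s3, x_f13_8, x_p11_13B, x_p13_33A]
                · rcases x_p11_33B with x_p11_33B | x_p11_33B | x_p11_33B
                  · linarith only [s1, x_f13_0, x_o0, x_p11_33B]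
                  · rcases x_p13_33A with x_p13_33A | x_p13_33A | x_p13_33A
                    · linarith only [s1, x_f11_0, x_p13_33A]
                    · linarith only [s2, x_a4, x_f33_5, x_o1, x_p11_33B, x_p13_33A]
                    · linarith only [s2, x_f11_0, x_f11_1, x_f13_4, x_f13_8, x_f33_5, x_f33_8, x_o1, x_p11_33B, x_p13_33A, x_t12_1]
                  · rcases x_p13_33A with x_p13_33A | x_p13_33A | x_p13_33A
                    · linarith only [s1, x_f11_0, x_p13_33A]
                    · rcases x_p11_13B with x_p11_13B | x_p11_13B | x_p11_13B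
                      · rcases x_p11_33A with x_p11_33A | x_p11_33A | x_p11_33A
                        · linarith only [s1, x_f11_0, x_p11_13B, x_p11_33A]
                        · rcases x_tmpp with x_tmpp | x_tmpp | x_tmpp | x_tmpp
                          · linarith only [s1, x_f11_0, x_f13_0, x_f33_0, x_tmpp]
                          · linarith only [s1, s3, x_f11_0, x_f13_0, x_f13_5, x_f13_7, x_f33_1, x_f33_5, x_p11_33B, x_p13_33A, x_tmpp]
                          · linarith only [e0, x_tmpp]
                          · linarith only [s2, x_f11_0, x_f11_1, x_p13_33A, x_tmpp]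
                        · linarith only [s3, x_f13_7, x_p11_33A]
                      · linarith only [s2, s3, x_f11_2, x_f13_5, x_f13_6, x_f33_4, x_f33_8, x_o1, x_p11_13B, x_p11_33B, x_p13_33A]
                      · linarith only [s2, x_b5, x_f11_2, x_f13_8, x_p11_13B, x_p13_33A]
                    · rcases x_p11_13B with x_p11_13B | x_p11_13B | x_p11_13B
                      · rcases x_p11_33A with x_p11_33A | x_p11_33A | x_p11_33A
                        · linarith only [s1, x_f11_0, x_p11_13B, x_p11_33A]
                        · rcases x_tmpp with x_tmpp | x_tmpp | x_tmpp | x_tmpp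
                          · linarith only [s1, x_f11_0, x_f13_0, x_f33_0, x_tmpp]
                          · linarith only [s1, s3, x_f11_1, x_f13_0, x_f13_3, x_f13_5, x_f13_7, x_f33_1, x_f33_5, x_p11_13B, x_p11_33A, x_p11_33B, x_tmpp]
                          · linarith only [e0, x_tmpp]
                          · rcases x_tmzp with x_tmzp | x_tmzp | x_tmzp | x_tmzp | x_tmzp | x_tmzp
                            · linarith only [s1, x_f11_0, x_f13_0, x_f33_0, x_tmzp]
                            · linarith only [s1, s3, x_f11_1, x_f13_0, x_f13_3, x_f13_5, x_f13_7, x_f33_1, x_f33_5, x_p11_13B, x_p11_33A, x_p11_33B, x_tmzp]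
                            · linarith only [s2, x_f11_0, x_f11_1, x_f13_4, x_f13_8, x_f33_4, x_f33_8, x_p13_33A, x_tmpp, x_tmzp]
                            · linarith only [e0, x_tmzp]
                            · linarith only [x_t12_1, x_tmzp]
                            · linarith only [s3, x_f11_0, x_f11_1, x_f11_2, x_p13_33A, x_tmpp, x_tmzp]
                        · linarith only [s3, x_f13_7, x_p11_33A]
                      · linarith only [s2, s3, x_f11_0, x_f11_1, x_f13_5, x_f13_7, x_f33_4, x_o1, x_p11_13B, x_p11_33B, x_t12_1]
                      · linarith only [s3, x_f13_8, x_p11_13B, x_p13_33A]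
      · rcases x_f13_5 with x_f13_5 | x_f13_5
        · rcases x_f13_8 with x_f13_8 | x_f13_8
          · linarith only [x_f13_2, x_f13_5, x_f13_7, x_f13_8, x_o0, x_t12_1, x_t23_1]
          · rcases x_p11_13B with x_p11_13B | x_p11_13B | x_p11_13B
            · rcases x_p11_33A with x_p11_33A | x_p11_33A | x_p11_33A
              · linarith only [s1, x_f11_0, x_p11_13B, x_p11_33A]
              · rcases x_f33_5 with x_f33_5 | x_f33_5
                · linarith only [s1, x_a3, x_f11_0, x_f11_1, x_f33_5, x_p11_13B, x_p11_33A]
                · rcases x_f33_8 with x_f33_8 | x_f33_8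
                  · linarith only [s2, s3, x_f11_0, x_f11_1, x_f11_2, x_f13_2, x_f13_4, x_f13_5, x_f13_7, x_f33_5, x_f33_7, x_f33_8, x_o0, x_o1, x_t23_1]
                  · rcases x_tmpp with x_tmpp | x_tmpp | x_tmpp | x_tmpp
                    · linarith only [s1, x_f11_0, x_f13_0, x_f33_0, x_tmpp]
                    · linarith only [s1, x_f11_0, x_f11_1, x_f33_1, x_f33_5, x_p11_13B, x_p11_33A, x_t12_1, x_t23_0, x_tmpp]
                    · linarith only [e0, x_tmpp]
                    · rcases x_p13_33A with x_p13_33A | x_p13_33A | x_p13_33A
                      · linarith only [s1, x_f11_0, x_p13_33A]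
                      · linarith only [s2, x_f11_0, x_f11_1, x_p13_33A, x_tmpp]
                      · rcases x_p11_33B with x_p11_33B | x_p11_33B | x_p11_33B
                        · linarith only [s1, x_f13_0, x_o0, x_p11_33B]
                        · linarith only [x_f11_0, x_f11_1, x_f13_2, x_f13_4, x_f13_5, x_f13_8, x_f33_5, x_f33_8, x_o0, x_p11_33B, x_p13_33A, x_t12_1]
                        · rcases x_tmzp with x_tmzp | x_tmzp | x_tmzp | x_tmzp | x_tmzp | x_tmzp
                          · linarith only [s1, x_f11_0, x_f13_0, x_f33_0, x_tmzp]
                          · linarith only [s1, s2, x_f11_0, x_f11_1, x_f13_3, x_f33_1, x_f33_5, x_p11_13B, x_p11_33A, x_t23_0, x_tmzp]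
                          · linarith only [s2, x_f11_0, x_f11_1, x_f13_4, x_f13_8, x_f33_4, x_f33_8, x_p13_33A, x_tmpp, x_tmzp]
                          · linarith only [e0, x_tmzp]
                          · linarith only [x_t12_1, x_tmzp]
                          · linarith only [x_t23_1, x_tmzp]
              · linarith only [s3, x_f13_7, x_p11_33A]
            · linarith only [x_f11_0, x_f11_1, x_f13_2, x_f13_5, x_o0, x_p11_13B, x_t12_1]
            · linarith only [x_f11_0, x_f11_1, x_f11_2, x_f13_8, x_p11_13B, x_t12_1, x_t23_1]
        · rcases x_f13_8 with x_f13_8 | x_f13_8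
          · linarith only [x_a4, x_f13_5, x_f13_7, x_f13_8, x_o1, x_o2, x_t23_1]
          · rcases x_f33_5 with x_f33_5 | x_f33_5
            · linarith only [s1, x_f11_0, x_f13_0, x_f13_3, x_f13_5, x_f33_4, x_f33_5, x_o2]
            · rcases x_f33_8 with x_f33_8 | x_f33_8
              · linarith only [x_a4, x_f33_5, x_f33_7, x_f33_8, x_o1, x_o2, x_t23_1]
              · rcases x_p11_13B with x_p11_13B | x_p11_13B | x_p11_13B
                · rcases x_p11_33A with x_p11_33A | x_p11_33A | x_p11_33A
                  · linarith only [s1, x_f11_0, x_p11_13B, x_p11_33A]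
                  · rcases x_tmpp with x_tmpp | x_tmpp | x_tmpp | x_tmpp
                    · linarith only [s1, x_f11_0, x_f13_0, x_f33_0, x_tmpp]
                    · linarith only [s1, x_f11_1, x_f13_0, x_f13_3, x_f13_5, x_f33_1, x_f33_5, x_o2, x_p11_13B, x_p11_33A, x_tmpp]
                    · linarith only [e0, x_tmpp]
                    · rcases x_p13_33A with x_p13_33A | x_p13_33A | x_p13_33A
                      · linarith only [s1, x_f11_0, x_p13_33A]
                      · linarith only [s2, x_f11_0, x_f11_1, x_p13_33A, x_tmpp]
                      · rcases x_p11_33B with x_p11_33B | x_p11_33B | x_p11_33B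
                        · linarith only [s1, x_f13_0, x_o0, x_p11_33B]
                        · linarith only [s2, x_f11_0, x_f11_1, x_f13_3, x_f13_4, x_f13_8, x_f33_5, x_f33_8, x_p11_13B, x_p11_33A, x_p11_33B, x_p13_33A]
                        · rcases x_tmzp with x_tmzp | x_tmzp | x_tmzp | x_tmzp | x_tmzp | x_tmzp
                          · linarith only [s1, x_f11_0, x_f13_0, x_f33_0, x_tmzp]
                          · linarith only [s1, s3, x_f11_1, x_f13_0, x_f13_3, x_f13_5, x_f13_7, x_f33_1, x_f33_5, x_p11_13B, x_p11_33A, x_p11_33B, x_tmzp]
                          · linarith only [s2, x_f11_0, x_f11_1, x_f13_4, x_f13_8, x_f33_4, x_f33_8, x_p13_33A, x_tmpp, x_tmzp]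
                          · linarith only [e0, x_tmzp]
                          · linarith only [x_t12_1, x_tmzp]
                          · linarith only [x_t23_1, x_tmzp]
                  · linarith only [s3, x_f13_7, x_p11_33A]
                · linarith only [s2, x_f11_0, x_f11_1, x_f13_5, x_f33_4, x_o1, x_o2, x_p11_13B, x_t12_1]
                · linarith only [x_f11_0, x_f11_1, x_f11_2, x_f13_8, x_p11_13B, x_t12_1, x_t23_1]
  · linarith only [s1, x_f11_0, x_f13_0, x_f13_2, x_f33_1, x_o2]

end Pool.Agent.Helper74.TQ
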